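import Mathlib

/-!
Definitions: the reduced group C*-algebra, amenability, matricial weak semiprojectivity.
-/

set_option autoImplicit false

namespace Pool.Agent.MP_56ff7a_an

open scoped ENNReal

/-- The Hilbert space of square summable complex functions on `G`. -/
abbrev L2 (G : Type) : Type := lp (fun _ : G => ℂ) 2

/-- The bounded operators on `L2 G`. -/
abbrev BL2 (G : Type) : Type := L2 G →L[ℂ] L2 G

/-- The operators `λ_g` of the left regular representation, `(λ_g ξ)(h) = ξ(g⁻¹ h)`. -/
def leftTranslations (G : Type) [Group G] : Set (BL2 G) :=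
  {T | ∃ g : G, ∀ (ξ : L2 G) (h : G), T ξ h = ξ (g⁻¹ * h)}

/-- The C*-subalgebra generated by a set: the norm closure of the star algebra it generates. -/
noncomputable def generatedCStar {B : Type} [CStarAlgebra B] (s : Set B) : StarSubalgebra ℂ B :=
  (StarAlgebra.adjoin ℂ s).topologicalClosure

/-- Amenability: there is a left invariant finitely additive probability measure defined on all
subsets of `G`. -/
def IsAmenable (G : Type) [Group G] : Prop :=
  ∃ m : Set G → ℝ≥0∞, m Set.univ = 1 ∧
    (∀ s t : Set G, Disjoint s t → m (s ∪ t) = m s + m t) ∧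
    ∀ (g : G) (s : Set G), m ((fun x => g * x) '' s) = m s

/-- The matrix algebra `M_k(ℂ)` with the operator norm: all operators on `ℂ^k`. -/
abbrev Mat (k : ℕ) : Type := EuclideanSpace ℂ (Fin k) →L[ℂ] EuclideanSpace ℂ (Fin k)

/-- The sequences tending to zero in norm, inside the bounded sequences. -/
def nullSequences (B : ℕ → Type) [∀ n, NormedAddCommGroup (B n)] : Set (lp B ∞) :=
  {x | Filter.Tendsto (fun n => ‖x n‖) Filter.atTop (nhds 0)}

/-- Every star homomorphism from `A` to the quotient of `P` by `N` lifts to `P`. -/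
def Lifts (A P : Type) [NonUnitalRing A] [Module ℂ A] [Star A]
    [NonUnitalRing P] [Module ℂ P] [Star P] (N : Set P) : Prop :=
  ∀ (Q : Type) [NonUnitalRing Q] [Module ℂ Q] [Star Q] (q : P →⋆ₙₐ[ℂ] Q),
    Function.Surjective q → (∀ x : P, q x = 0 ↔ x ∈ N) →
    ∀ φ : A →⋆ₙₐ[ℂ] Q, ∃ ψ : A →⋆ₙₐ[ℂ] P, ∀ x : A, q (ψ x) = φ x

/-- Star homomorphisms from the subalgebra `A` to the product of the `B n` modulo their sum lift
to the product. -/
def LiftsAlong {C : Type} [CStarAlgebra C] (A : StarSubalgebra ℂ C)
    (B : ℕ → Type) [∀ n, CStarAlgebra (B n)] : Prop :=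
  Lifts A (lp B ∞) (nullSequences B)

/-- Matricial weak semiprojectivity of a subalgebra `A` of a C*-algebra. -/
def IsMatriciallyWeaklySemiprojective {C : Type} [CStarAlgebra C] (A : StarSubalgebra ℂ C) :
    Prop :=
  ∀ k : ℕ → ℕ, LiftsAlong A (fun n => Mat (k n))

end Pool.Agent.MP_56ff7a_an
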